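import Pool.Agent.Q7.LK.Stm

/-!
# Project LK (helper7): `AT` has the properties of `Loc`
-/

set_option autoImplicit false

namespace Pool.Agent.Q153.LK

open NumberField IsDedekindDomain Filter Topology
open Pool.Agent.Q7.LK
open Pool.Agent.Q283.LQ (Sm Box Nest nS)

variable {p : ℕ} [Fact p.Prime] {F : Type} [Field F] [NumberField F]

theorem lpw_ne (hB : S_BAS) {v : HeightOneSpectrum (𝓞 F)} {a : F} (h : Lpw p v a) : a ≠ 0 :=
  ((hB p F v).1 a h).1

theorem lpw_mul (hB : S_BAS) {v : HeightOneSpectrum (𝓞 F)} {a b : F} (ha : Lpw p v a) (hb : Lpw p v b) :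
    Lpw p v (a * b) := (hB p F v).2.1 a b ha hb

theorem lpw_powp (hB : S_BAS) (v : HeightOneSpectrum (𝓞 F)) {a : F} (ha : a ≠ 0) :
    Lpw p v (a ^ p) := (hB p F v).2.2.1 a ha

theorem lpw_inv (hB : S_BAS) {v : HeightOneSpectrum (𝓞 F)} {a : F} (ha : Lpw p v a) :
    Lpw p v a⁻¹ := (hB p F v).2.2.2.1 a ha

theorem lpw_div (hB : S_BAS) {v : HeightOneSpectrum (𝓞 F)} {a b : F} (ha : Lpw p v a) (hb : Lpw p v b) :
    Lpw p v (a / b) := by
  rw [div_eq_mul_inv]
  exact lpw_mul hB ha (lpw_inv hB hb)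

theorem lpw_one (hB : S_BAS) (v : HeightOneSpectrum (𝓞 F)) : Lpw p v (1 : F) := by
  have h := lpw_powp (p := p) hB v (one_ne_zero (α := F))
  rwa [one_pow] at h

theorem lpw_pow (hB : S_BAS) {v : HeightOneSpectrum (𝓞 F)} {a : F} (ha : Lpw p v a) (n : ℕ) :
    Lpw p v (a ^ n) := by
  induction n with
  | zero => rw [pow_zero]; exact lpw_one hB v
  | succ n ih => rw [pow_succ]; exact lpw_mul hB ih ha

theorem coe_alg (v : HeightOneSpectrum (𝓞 F)) (a : F) :
    (a : v.adicCompletion F) = algebraMap F (v.adicCompletion F) a := by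
  rw [HeightOneSpectrum.algebraMap_adicCompletion]
  rfl

theorem lpw_iff (hC : S_CPL) (v : HeightOneSpectrum (𝓞 F)) (a : F) :
    Lpw p v a ↔ a ≠ 0 ∧ ∃ s : v.adicCompletion F, algebraMap F (v.adicCompletion F) a = s ^ p := by
  rw [hC p F v a]
  simp only [coe_alg]

omit [Fact p.Prime] in
theorem at_iff (v : HeightOneSpectrum (𝓞 F)) (D a : F) : AT p v D a ↔
    a ≠ 0 ∧ (¬ Lpw p v D → ∃ j : ℕ, Lpw p v (a * D ^ j)) ∧
    (Lpw p v D → ∃ ξ s : v.adicCompletion F, (∃ m : ℕ, ξ ^ p ^ m = 1) ∧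
      algebraMap F (v.adicCompletion F) a * ξ = s ^ p) := by
  unfold AT
  simp only [coe_alg]

theorem pow_div_zpow {K : Type} [Field K] {d : K} (hd : d ≠ 0) (p : ℕ) {i j : ℕ}
    (h : ((i : ℕ) : ZMod p) = ((j : ℕ) : ZMod p)) : ∃ e : K, e ≠ 0 ∧ d ^ i = d ^ j * e ^ p := by
  have h1 : (((i : ℤ) - (j : ℤ) : ℤ) : ZMod p) = 0 := by
    push_cast
    rw [h, sub_self]
  obtain ⟨k, hk⟩ := (ZMod.intCast_zmod_eq_zero_iff_dvd _ p).1 h1
  refine ⟨d ^ k, zpow_ne_zero k hd, ?_⟩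
  rw [← zpow_natCast, ← zpow_natCast, ← zpow_natCast, ← zpow_mul, ← zpow_add₀ hd]
  congr 1
  linear_combination hk

/-- the local classes of powers of `D` -/
theorem num1 (hB : S_BAS) (v : HeightOneSpectrum (𝓞 F)) {D : F} (hD : D ≠ 0) (B : Finset F)
    (h : ∀ b ∈ B, ∃ j : ℕ, Lpw p v (b * D ^ j))
    (hp : ∀ b ∈ B, ∀ b' ∈ B, b ≠ b' → ¬ Lpw p v (b / b')) : B.card ≤ p := by
  classical
  choose! j hj using h
  have hinj : Set.InjOn (fun b => ((j b : ℕ) : ZMod p)) (B : Set F) := by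
    intro b hb b' hb' he
    by_contra hne
    apply hp b hb b' hb' hne
    obtain ⟨e, he0, hee⟩ := pow_div_zpow hD p (he : ((j b : ℕ) : ZMod p) = ((j b' : ℕ) : ZMod p))
    have h1 := lpw_mul hB (lpw_div hB (hj b hb) (hj b' hb')) (lpw_inv hB (lpw_powp hB v he0))
    have hb0 : b' ≠ 0 := left_ne_zero_of_mul (lpw_ne hB (hj b' hb'))
    have e1 : b * D ^ j b / (b' * D ^ j b') * (e ^ p)⁻¹ = b / b' := by
      rw [hee]
      field_simp
    rwa [e1] at h1
  have h2 := Finset.card_le_card_of_injOn (t := (Finset.univ : Finset (ZMod p)))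
    (fun b => ((j b : ℕ) : ZMod p)) (fun b _ => Finset.mem_univ _) hinj
  rwa [Finset.card_univ, ZMod.card] at h2

/-- the local classes of roots of unity of order a power of `p` -/
theorem num2 (hC : S_CPL) (v : HeightOneSpectrum (𝓞 F)) (B : Finset F) (h0 : ∀ b ∈ B, b ≠ 0)
    (h : ∀ b ∈ B, ∃ ξ s : v.adicCompletion F, (∃ m : ℕ, ξ ^ p ^ m = 1) ∧
      algebraMap F (v.adicCompletion F) b * ξ = s ^ p)
    (hp : ∀ b ∈ B, ∀ b' ∈ B, b ≠ b' → ¬ Lpw p v (b / b')) : B.card ≤ p := by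
  classical
  choose! ξ s hm hs using h
  choose! m hm using hm
  set M : ℕ := ∑ b ∈ B, m b with hM
  have hx : ∀ b ∈ B, ξ b ^ p ^ M = 1 := by
    intro b hb
    obtain ⟨k, hk⟩ := Nat.exists_eq_add_of_le
      (Finset.single_le_sum (f := m) (fun _ _ => Nat.zero_le _) hb)
    rw [hM, hk, pow_add, pow_mul, hm b hb, one_pow]
  have hpp : 0 < p := (Fact.out : p.Prime).pos
  have : NeZero (p ^ M) := ⟨(pow_pos hpp M).ne'⟩
  have hcyc : IsCyclic (rootsOfUnity (p ^ M) (v.adicCompletion F)) := inferInstance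
  obtain ⟨g, hg⟩ := hcyc.exists_generator
  have hn : ∀ b ∈ B, ∃ n : ℤ, ((g : (v.adicCompletion F)ˣ) : v.adicCompletion F) ^ n = ξ b := by
    intro b hb
    have hx0 : ξ b ≠ 0 := by
      intro h0
      have := hx b hb
      rw [h0, zero_pow (pow_pos hpp M).ne'] at this
      exact zero_ne_one this
    have hmem : Units.mk0 (ξ b) hx0 ∈ rootsOfUnity (p ^ M) (v.adicCompletion F) := by
      rw [mem_rootsOfUnity]
      ext
      rw [Units.val_pow_eq_pow_val, Units.val_mk0, hx b hb, Units.val_one]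
    obtain ⟨n, hn⟩ := Subgroup.mem_zpowers_iff.1 (hg ⟨_, hmem⟩)
    refine ⟨n, ?_⟩
    have := congrArg (fun y : rootsOfUnity (p ^ M) (v.adicCompletion F) =>
      ((y : (v.adicCompletion F)ˣ) : v.adicCompletion F)) hn
    simpa using this
  choose! n hn using hn
  have hg0 : ((g : (v.adicCompletion F)ˣ) : v.adicCompletion F) ≠ 0 := Units.ne_zero _
  set G : v.adicCompletion F := ((g : (v.adicCompletion F)ˣ) : v.adicCompletion F) with hG
  have hinj : Set.InjOn (fun b => ((n b : ℤ) : ZMod p)) (B : Set F) := by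
    intro b hb b' hb' he
    by_contra hne
    apply hp b hb b' hb' hne
    rw [lpw_iff hC]
    refine ⟨div_ne_zero (h0 b hb) (h0 b' hb'), ?_⟩
    have h1 : (((n b) - (n b') : ℤ) : ZMod p) = 0 := by
      push_cast
      have he' : ((n b : ℤ) : ZMod p) = ((n b' : ℤ) : ZMod p) := he
      rw [he', sub_self]
    obtain ⟨k, hk⟩ := (ZMod.intCast_zmod_eq_zero_iff_dvd _ p).1 h1
    have e1 : ξ b = ξ b' * (G ^ k) ^ p := by
      rw [← hn b hb, ← hn b' hb', ← zpow_natCast, ← zpow_mul, ← zpow_add₀ hg0]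
      congr 1
      linear_combination hk
    have e2 := hs b hb
    have e3 := hs b' hb'
    have hb0 : algebraMap F (v.adicCompletion F) b' ≠ 0 := (map_ne_zero _).2 (h0 b' hb')
    have hx0 : ξ b' ≠ 0 := by
      rw [← hn b' hb']
      exact zpow_ne_zero _ hg0
    have hGk : G ^ k ≠ 0 := zpow_ne_zero _ hg0
    refine ⟨s b / (s b' * G ^ k), ?_⟩
    rw [div_pow, mul_pow, ← e2, ← e3, e1, map_div₀]
    field_simp
  have h2 := Finset.card_le_card_of_injOn (t := (Finset.univ : Finset (ZMod p)))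
    (fun b => ((n b : ℤ) : ZMod p)) (fun b _ => Finset.mem_univ _) hinj
  rwa [Finset.card_univ, ZMod.card] at h2

theorem atl : S_BAS → S_CPL → S_ATL := by
  intro hB hC p _ hp2 F _ _ ζ hζ
  refine ⟨fun v D a _ _ h => h.1, ?_, ?_, ?_, ?_, ?_, fun v _ => rfl⟩
  · -- mul
    intro v D a b _ hD h hb
    rw [at_iff] at h ⊢
    obtain ⟨ha, h1, h2⟩ := h
    refine ⟨mul_ne_zero ha (lpw_ne hB hb), fun hn => ?_, fun hl => ?_⟩
    · obtain ⟨j, hj⟩ := h1 hn
      refine ⟨j, ?_⟩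
      rw [mul_right_comm]
      exact lpw_mul hB hj hb
    · obtain ⟨ξ, s, hm, hs⟩ := h2 hl
      obtain ⟨hb0, t, ht⟩ := (lpw_iff hC v b).1 hb
      refine ⟨ξ, s * t, hm, ?_⟩
      rw [map_mul, ht, mul_pow, ← hs]
      ring
  · -- inv
    intro v D n a _ hD hn h
    rw [at_iff] at h ⊢
    obtain ⟨ha, h1, h2⟩ := h
    have hn0 := lpw_ne hB hn
    refine ⟨ha, fun hnn => ?_, fun hl => ?_⟩
    · obtain ⟨j, hj⟩ := h1 fun h => hnn (lpw_mul hB h hn)
      refine ⟨j, ?_⟩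
      rw [mul_pow, ← mul_assoc]
      exact lpw_mul hB hj (lpw_pow hB hn j)
    · apply h2
      have h3 := lpw_div hB hl hn
      rwa [mul_div_assoc, div_self hn0, mul_one] at h3
  · -- clo
    intro v D a _ hD h
    rw [at_iff] at h ⊢
    obtain ⟨ha, h1, h2⟩ := h
    refine ⟨mul_ne_zero ha hD, fun hn => ?_, fun hl => ?_⟩
    · obtain ⟨j, hj⟩ := h1 hn
      refine ⟨j + (p - 1), ?_⟩
      have e : a * D * D ^ (j + (p - 1)) = (a * D ^ j) * D ^ p := by
        have hpp : p = (p - 1) + 1 := (Nat.succ_pred_eq_of_pos (Fact.out : p.Prime).pos).symm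
        conv_rhs => rw [hpp]
        rw [pow_add, pow_succ]
        ring
      rw [e]
      exact lpw_mul hB hj (lpw_powp hB v hD)
    · obtain ⟨ξ, s, hm, hs⟩ := h2 hl
      obtain ⟨hb0, t, ht⟩ := (lpw_iff hC v D).1 hl
      refine ⟨ξ, s * t, hm, ?_⟩
      rw [map_mul, ht, mul_pow, ← hs]
      ring
  · -- pow
    intro v D a _ hD h n
    rw [at_iff] at h ⊢
    obtain ⟨ha, h1, h2⟩ := h
    refine ⟨pow_ne_zero n ha, fun hn => ?_, fun hl => ?_⟩
    · obtain ⟨j, hj⟩ := h1 hn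
      refine ⟨j * n, ?_⟩
      rw [pow_mul, ← mul_pow]
      exact lpw_pow hB hj n
    · obtain ⟨ξ, s, ⟨m, hm⟩, hs⟩ := h2 hl
      refine ⟨ξ ^ n, s ^ n, ⟨m, ?_⟩, ?_⟩
      · rw [← pow_mul, mul_comm, pow_mul, hm, one_pow]
      · rw [map_pow, ← mul_pow, hs, ← pow_mul, ← pow_mul, mul_comm]
  · -- num
    intro v D _ hD B hA hpair
    rw [zero_add, pow_one]
    have hA' : ∀ b ∈ B, _ := fun b hb => (at_iff v D b).1 (hA b hb)
    by_cases hl : Lpw p v D
    · exact num2 hC v B (fun b hb => (hA' b hb).1) (fun b hb => (hA' b hb).2.2 hl) hpair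
    · exact num1 hB v hD B (fun b hb => (hA' b hb).2.1 hl) hpair

end Pool.Agent.Q153.LK
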