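import Pool.Agent.Q153.LK.Vl
import Pool.Agent.Q153.LK.ATL
import Pool.Agent.Q53.LQ2.NEST

/-!
# Project LK (helper7): job BASE, normalised generators and the reciprocity function
-/

set_option autoImplicit false

namespace Pool.Agent.Q153.LK

open NumberField IsDedekindDomain Filter Topology
open Pool.Agent.Q7.LK
open Pool.Agent.Q283.LQ (Sm Box Nest nS)
open Pool.Agent.Q53.LQ2.NEST (Cs Nm fin_sm tend_top)

variable {p : ℕ} [Fact p.Prime] {F : Type} [Field F] [NumberField F]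

theorem sm_of_dp {y : ℕ} (hy : p ≤ y) {v : HeightOneSpectrum (𝓞 F)} (h : Dp p v) : Sm y v :=
  ⟨p, Fact.out, hy, h⟩

theorem nn_mul (hB : S_BAS) {y : ℕ} {a b : F} (ha : Nn p y a) (hb : Nn p y b) : Nn p y (a * b) :=
  ⟨mul_ne_zero ha.1 hb.1, fun v hv => lpw_mul hB (ha.2 v hv) (hb.2 v hv)⟩

theorem nn_inv (hB : S_BAS) {y : ℕ} {a : F} (ha : Nn p y a) : Nn p y a⁻¹ :=
  ⟨inv_ne_zero ha.1, fun v hv => lpw_inv hB (ha.2 v hv)⟩

theorem nn_div (hB : S_BAS) {y : ℕ} {a b : F} (ha : Nn p y a) (hb : Nn p y b) : Nn p y (a / b) := by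
  rw [div_eq_mul_inv]
  exact nn_mul hB ha (nn_inv hB hb)

/-- infinitely many primes have given symbols -/
theorem inf_symb (hC : S_CHEB) {ζ : F} (hζ : IsPrimitiveRoot ζ p) {f : ℕ} {u : Fin f → F} (hu : ∀ l, u l ≠ 0)
    (hi : ∀ c : Fin f → ZMod p, IsPow p (mon u c) → c = 0) (φ : Fin f → ZMod p) :
    {v : HeightOneSpectrum (𝓞 F) | ∀ i, sy p ζ v (u i) = φ i}.Infinite := by
  intro hfin
  have h1 := hC p F ζ hζ f u hu hi φ
  have h2 : Tendsto (fun X : ℕ =>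
    ({v : HeightOneSpectrum (𝓞 F) | Ideal.absNorm v.asIdeal ≤ X ∧ ∀ i, sy p ζ v (u i) = φ i}.ncard : ℝ) /
      ({v : HeightOneSpectrum (𝓞 F) | Ideal.absNorm v.asIdeal ≤ X}.ncard : ℝ)) atTop (𝓝 0) := by
    have h3 : Tendsto (fun X : ℕ => ({v : HeightOneSpectrum (𝓞 F) | ∀ i, sy p ζ v (u i) = φ i}.ncard : ℝ) /
      ({v : HeightOneSpectrum (𝓞 F) | Ideal.absNorm v.asIdeal ≤ X}.ncard : ℝ)) atTop (𝓝 0) :=
      Tendsto.div_atTop tendsto_const_nhds (tend_top F)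
    refine squeeze_zero (fun X => by positivity) (fun X => ?_) h3
    apply div_le_div_of_nonneg_right _ (by positivity)
    have h4 : {v : HeightOneSpectrum (𝓞 F) | Ideal.absNorm v.asIdeal ≤ X ∧ ∀ i, sy p ζ v (u i) = φ i}.ncard ≤
        {v : HeightOneSpectrum (𝓞 F) | ∀ i, sy p ζ v (u i) = φ i}.ncard :=
      Set.ncard_le_ncard (fun v hv => hv.2) hfin
    exact_mod_cast h4
  have h5 := tendsto_nhds_unique h1 h2
  have hp0 : (0 : ℝ) < p := by exact_mod_cast (Fact.out : p.Prime).pos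
  have h6 : (0 : ℝ) < 1 / (p : ℝ) ^ f := by positivity
  linarith

/-- a prime with given symbols, apart from two given primes -/
theorem ex_symb (hC : S_CHEB) {ζ : F} (hζ : IsPrimitiveRoot ζ p) (y : ℕ) {f : ℕ} {u : Fin f → F}
    (hu : ∀ l, u l ≠ 0)
    (hi : ∀ c : Fin f → ZMod p, IsPow p (mon u c) → c = 0) (φ : Fin f → ZMod p)
    (q q' : HeightOneSpectrum (𝓞 F)) :
    ∃ v : HeightOneSpectrum (𝓞 F), ¬ Sm y v ∧ (fun i => sy p ζ v (u i)) = φ ∧ v ≠ q ∧ v ≠ q' := by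
  have hfin : ({v : HeightOneSpectrum (𝓞 F) | Sm y v} ∪ {q, q'}).Finite :=
    (fin_sm y).union (Set.toFinite _)
  obtain ⟨v, hv, hv'⟩ := ((inf_symb hC hζ hu hi φ).sdiff hfin).nonempty
  simp only [Set.mem_union, Set.mem_ofPred_eq, Set.mem_insert_iff, Set.mem_singleton_iff, not_or] at hv'
  exact ⟨v, hv'.1, funext hv, hv'.2.1, hv'.2.2⟩

theorem val_mon {v : HeightOneSpectrum (𝓞 F)} {f : ℕ} {u : Fin f → F} (h : ∀ l, v.valuation F (u l) = 1)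
    (c : Fin f → ZMod p) : v.valuation F (mon u c) = 1 := by
  unfold mon
  rw [map_prod]
  exact Finset.prod_eq_one fun l _ => by rw [map_pow, h l, one_pow]

/-- the symbol of a quotient -/
theorem sy_div (hB : S_BAS) {ζ : F} (hζ : IsPrimitiveRoot ζ p) {v : HeightOneSpectrum (𝓞 F)} (hv : ¬ Dp p v)
    {a b : F} (ha : a ≠ 0) (hb : b ≠ 0) (ha1 : vl p v a = 0) (hb1 : vl p v b = 0) :
    sy p ζ v (a / b) = sy p ζ v a - sy p ζ v b := by
  have h1 : vl p v (a / b) = 0 := by rw [vl_div hB v ha hb, ha1, hb1, sub_self]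
  have h2 := ((hB p F v).2.2.2.2.2.2 hv ζ hζ).2.2.1 (a / b) b (div_ne_zero ha hb) hb h1 hb1
  rw [div_mul_cancel₀ a hb] at h2
  rw [h2]
  ring

/-- the reciprocity symbol depends only on the class of the first prime -/
theorem rec_dep (hp2 : p ≠ 2) (hB : S_BAS) (hR : S_REC) {ζ : F} (hζ : IsPrimitiveRoot ζ p) {y : ℕ}
    (hy2 : p ≤ y) {f : ℕ} {u r : Fin f → F} (hr : ∀ l, r l ≠ 0) {π : HeightOneSpectrum (𝓞 F) → F}
    (hπ0 : ∀ q, ¬ Sm y q → π q ≠ 0)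
    (hπ1 : ∀ q, ¬ Sm y q → q.valuation F (π q) = WithZero.exp (-1 : ℤ))
    (hπ2 : ∀ q, ¬ Sm y q → ∀ v : HeightOneSpectrum (𝓞 F), ¬ Sm y v → v ≠ q → v.valuation F (π q) = 1)
    (hpc : ∀ q, ¬ Sm y q → Nn p y (π q * mon r (fun l => sy p ζ q (u l))))
    {q1 q2 q' : HeightOneSpectrum (𝓞 F)} (h1 : ¬ Sm y q1) (h2 : ¬ Sm y q2) (h' : ¬ Sm y q')
    (hs : (fun l => sy p ζ q1 (u l)) = fun l => sy p ζ q2 (u l)) (hne1 : q1 ≠ q') (hne2 : q2 ≠ q') :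
    sy p ζ q' (π q1) - sy p ζ q1 (π q') = sy p ζ q' (π q2) - sy p ζ q2 (π q') := by
  classical
  by_cases h12 : q1 = q2
  · rw [h12]
  have hb : Nn p y (π q1 / π q2) := by
    have h3 := nn_div hB (hpc q1 h1) (hpc q2 h2)
    rw [hs] at h3
    rwa [mul_div_mul_right _ _ (mon_ne hr _)] at h3
  have hvl : ∀ q, ¬ Sm y q → ∀ v : HeightOneSpectrum (𝓞 F), ¬ Sm y v → vl p v (π q) = if v = q then 1 else 0 := by
    intro q hq v hv
    by_cases hvq : v = q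
    · rw [if_pos hvq, hvq]
      exact val_vl1 (hπ1 q hq)
    · rw [if_neg hvq]
      exact val_vl (hπ2 q hq v hv hvq)
  have hcond : ∀ v : HeightOneSpectrum (𝓞 F), ¬ Sm y v →
      v.valuation F (π q1 / π q2) = 1 ∨ v.valuation F (π q') = 1 := by
    intro v hv
    by_cases hvq : v = q'
    · left
      rw [map_div₀, hπ2 q1 h1 v hv (by rw [hvq]; exact hne1.symm),
        hπ2 q2 h2 v hv (by rw [hvq]; exact hne2.symm), div_one]
    · right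
      exact hπ2 q' h' v hv hvq
  have hev := (hR p hp2 F ζ hζ y hy2 (π q1 / π q2) (π q') (div_ne_zero (hπ0 q1 h1) (hπ0 q2 h2))
    (hπ0 q' h') hcond hb).2
  have c2 : ∑ᶠ v : {v : HeightOneSpectrum (𝓞 F) // ¬ Sm y v}, vl p v.1 (π q') * sy p ζ v.1 (π q1 / π q2) =
      sy p ζ q' (π q1 / π q2) := by
    rw [finsum_eq_single _ (⟨q', h'⟩ : {v : HeightOneSpectrum (𝓞 F) // ¬ Sm y v})]
    · rw [hvl q' h' q' h', if_pos rfl, one_mul]
    · intro x hx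
      rw [hvl q' h' x.1 x.2, if_neg fun e => hx (Subtype.ext e), zero_mul]
  have c1 : ∑ᶠ v : {v : HeightOneSpectrum (𝓞 F) // ¬ Sm y v}, vl p v.1 (π q1 / π q2) * sy p ζ v.1 (π q') =
      sy p ζ q1 (π q') - sy p ζ q2 (π q') := by
    have hne : (⟨q1, h1⟩ : {v : HeightOneSpectrum (𝓞 F) // ¬ Sm y v}) ≠ ⟨q2, h2⟩ := fun e =>
      h12 (congrArg Subtype.val e)
    rw [finsum_eq_sum_of_support_subset (s := {⟨q1, h1⟩, ⟨q2, h2⟩}), Finset.sum_pair hne]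
    · rw [vl_div hB q1 (hπ0 q1 h1) (hπ0 q2 h2), vl_div hB q2 (hπ0 q1 h1) (hπ0 q2 h2), hvl q1 h1 q1 h1,
        hvl q2 h2 q1 h1, hvl q1 h1 q2 h2, hvl q2 h2 q2 h2, if_pos rfl, if_pos rfl, if_neg h12,
        if_neg (Ne.symm h12)]
      ring
    · intro x hx
      by_contra hx2
      rw [Finset.coe_insert, Finset.coe_singleton, Set.mem_insert_iff, Set.mem_singleton_iff, not_or] at hx2
      apply hx
      show vl p x.1 (π q1 / π q2) * _ = 0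
      rw [vl_div hB x.1 (hπ0 q1 h1) (hπ0 q2 h2), hvl q1 h1 x.1 x.2, hvl q2 h2 x.1 x.2,
        if_neg fun e => hx2.1 (Subtype.ext e), if_neg fun e => hx2.2 (Subtype.ext e), sub_zero, zero_mul]
  rw [c1, c2, sy_div hB hζ (fun h => h' (sm_of_dp hy2 h)) (hπ0 q1 h1) (hπ0 q2 h2)
    (by rw [hvl q1 h1 q' h', if_neg hne1.symm]) (by rw [hvl q2 h2 q' h', if_neg hne2.symm])] at hev
  linear_combination (-1 : ZMod p) * hev

open Classical in
/-- **JOB BASE** -/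
theorem base : S_BAS → S_BAS1 → S_REC → S_CHEB → S_BASE := by
  intro hBAS hBAS1 hREC hCHEB p _ hp2 F _ _ ζ hζ
  obtain ⟨y0, hy0⟩ := hBAS1 p hp2 F ζ hζ
  refine ⟨y0, fun y hy => ?_⟩
  obtain ⟨f, u, r, P, B, hf⟩ := hy0 y hy
  choose c hc using B.pcl
  obtain ⟨π, hπ⟩ : ∃ π : HeightOneSpectrum (𝓞 F) → F, ∀ q (hq : ¬ Sm y q), π q = P q * mon u (c q hq) :=
    ⟨fun q => if hq : Sm y q then 1 else P q * mon u (c q hq), fun q hq => dif_neg hq⟩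
  have hp0 : ∀ q, ¬ Sm y q → P q ≠ 0 := by
    intro q hq h
    have h1 := (B.pv q hq).1
    rw [h, map_zero] at h1
    exact WithZero.exp_ne_zero h1.symm
  have hπ0 : ∀ q, ¬ Sm y q → π q ≠ 0 := by
    intro q hq
    rw [hπ q hq]
    exact mul_ne_zero (hp0 q hq) (mon_ne B.ue _)
  have hπ1 : ∀ q, ¬ Sm y q → q.valuation F (π q) = WithZero.exp (-1 : ℤ) := by
    intro q hq
    rw [hπ q hq, map_mul, (B.pv q hq).1, val_mon (fun l => B.uv l q hq), mul_one]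
  have hπ2 : ∀ q, ¬ Sm y q → ∀ v : HeightOneSpectrum (𝓞 F), ¬ Sm y v → v ≠ q → v.valuation F (π q) = 1 := by
    intro q hq v hv hvq
    rw [hπ q hq, map_mul, (B.pv q hq).2 v hv hvq, val_mon (fun l => B.uv l v hv), mul_one]
  have hpc : ∀ q, ¬ Sm y q → Nn p y (π q * mon r (fun l => sy p ζ q (u l))) := by
    intro q hq
    have h1 := hc q hq
    rw [hπ q hq]
    have h2 : P q * mon u (c q hq) * mon r (fun l => sy p ζ q (u l)) =
        P q * mon r (fun l => sy p ζ q (u l)) * mon u (c q hq) := by ring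
    rw [h2]
    exact h1
  have hdep : ∀ {q1 q2 q' : HeightOneSpectrum (𝓞 F)}, ¬ Sm y q1 → ¬ Sm y q2 → ¬ Sm y q' →
      (fun l => sy p ζ q1 (u l)) = (fun l => sy p ζ q2 (u l)) → q1 ≠ q' → q2 ≠ q' →
      sy p ζ q' (π q1) - sy p ζ q1 (π q') = sy p ζ q' (π q2) - sy p ζ q2 (π q') :=
    fun h1 h2 h' hs ha1 ha2 =>
      rec_dep hp2 hBAS hREC hζ B.two B.re hπ0 hπ1 hπ2 hpc h1 h2 h' hs ha1 ha2
  let Pr : (Fin f → ZMod p) → (Fin f → ZMod p) → HeightOneSpectrum (𝓞 F) × HeightOneSpectrum (𝓞 F) → Prop :=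
    fun φ φ' z => ¬ Sm y z.1 ∧ ¬ Sm y z.2 ∧ z.1 ≠ z.2 ∧ (fun l => sy p ζ z.1 (u l)) = φ ∧
      (fun l => sy p ζ z.2 (u l)) = φ'
  obtain ⟨g, hg⟩ : ∃ g : (Fin f → ZMod p) → (Fin f → ZMod p) → ZMod p, ∀ φ φ', (∃ z, Pr φ φ' z) →
      ∃ z, Pr φ φ' z ∧ g φ φ' = sy p ζ z.2 (π z.1) - sy p ζ z.1 (π z.2) := by
    refine ⟨fun φ φ' => if h : ∃ z, Pr φ φ' z then
      sy p ζ h.choose.2 (π h.choose.1) - sy p ζ h.choose.1 (π h.choose.2)
      else 0, fun φ φ' h => ⟨h.choose, h.choose_spec, dif_pos h⟩⟩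
  refine ⟨f, u, r, π, g, ⟨B.two, B.ue, B.re, ?_, B.ind, B.full, ?_, B.cls, hpc, ?_⟩, hf⟩
  · exact fun l v hv => val_vl (B.uv l v hv)
  · intro q hq
    refine ⟨hπ0 q hq, fun v hv => ?_⟩
    by_cases hvq : v = q
    · rw [if_pos hvq, hvq]
      exact val_vl1 (hπ1 q hq)
    · rw [if_neg hvq]
      exact val_vl (hπ2 q hq v hv hvq)
  · intro q q' hq hq' hap
    obtain ⟨⟨q1, q1'⟩, ⟨h1, h1', hap1, hs1, hs1'⟩, hgz⟩ :=
      hg (fun l => sy p ζ q (u l)) (fun l => sy p ζ q' (u l)) ⟨(q, q'), hq, hq', hap, rfl, rfl⟩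
    simp only at h1 h1' hap1 hs1 hs1' hgz
    rw [hgz]
    obtain ⟨q2, hq2, hs2, ha2, ha2'⟩ := ex_symb hCHEB hζ y B.ue B.ind (fun l => sy p ζ q (u l)) q' q1'
    have e1 := hdep hq hq2 hq' hs2.symm hap ha2
    have e2 := hdep h1 hq2 h1' (hs1.trans hs2.symm) hap1 ha2'
    have e3 := hdep h1' hq' hq2 hs1' ha2'.symm ha2.symm
    rw [e1, e2]
    linear_combination e3

end Pool.Agent.Q153.LK
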