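import Pool.Agent.Q153.LK.Vl
import Pool.Agent.Q53.LQ2.NEST

/-!
# Project LK (helper7): job NEST, equidistribution of the tables
-/

set_option autoImplicit false

namespace Pool.Agent.Q153.LK

open NumberField IsDedekindDomain Filter Topology
open Pool.Agent.Q7.LK
open Pool.Agent.Q283.LQ (Sm Box Nest nS)
open Pool.Agent.Q53.LQ2.NEST (Cs Nm W fin_sm ratio_congr tend_top box_sum lim_W nest_mono)

variable {p : ℕ} [Fact p.Prime] {F : Type} [Field F] [NumberField F]

theorem indep (hB : S_BAS) {ζ : F} {y f : ℕ} {u r : Fin f → F} {π : HeightOneSpectrum (𝓞 F) → F}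
    {g : (Fin f → ZMod p) → (Fin f → ZMod p) → ZMod p} (hb : Base p ζ y f u r π g) {k : ℕ}
    {q : Fin k → HeightOneSpectrum (𝓞 F)} (hq : Function.Injective q) (hS : ∀ i, ¬ Sm y (q i)) :
    (∀ i, (Fin.append u fun i => π (q i)) i ≠ 0) ∧
    ∀ c : Fin (f + k) → ZMod p, IsPow p (mon (Fin.append u fun i => π (q i)) c) → c = 0 := by
  have hne : ∀ i, (Fin.append u fun i => π (q i)) i ≠ 0 := by
    intro i
    refine Fin.addCases ?_ ?_ i
    · intro j
      rw [Fin.append_left]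
      exact hb.ue j
    · intro j
      rw [Fin.append_right]
      exact (hb.po _ (hS j)).1
  refine ⟨hne, ?_⟩
  intro c hc
  have hmon : mon (Fin.append u fun i => π (q i)) c ≠ 0 := mon_ne hne c
  obtain ⟨s, hs⟩ := hc
  have hp0 : p ≠ 0 := (Fact.out : p.Prime).ne_zero
  have hs0 : s ≠ 0 := by
    rintro rfl
    rw [zero_pow hp0] at hs
    exact hmon hs
  have h1 : ∀ j : Fin k, c (Fin.natAdd f j) = 0 := by
    intro j
    have h2 := vl_mon hB (q j) hne c
    rw [hs, vl_powp hB _ hs0, Fin.sum_univ_add] at h2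
    have h3 : ∀ l : Fin f, vl p (q j) ((Fin.append u fun i => π (q i)) (Fin.castAdd k l)) = 0 := by
      intro l
      rw [Fin.append_left]
      exact hb.uo l _ (hS j)
    have h4 : ∀ i : Fin k, vl p (q j) ((Fin.append u fun i => π (q i)) (Fin.natAdd f i)) =
        if j = i then 1 else 0 := by
      intro i
      rw [Fin.append_right, (hb.po _ (hS i)).2 _ (hS j)]
      by_cases hij : j = i
      · rw [if_pos hij, if_pos (by rw [hij])]
      · rw [if_neg hij, if_neg fun h => hij (hq h)]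
    simp only [h3, h4, mul_zero, Finset.sum_const_zero, zero_add, mul_ite, mul_one,
      Finset.sum_ite_eq, Finset.mem_univ, if_true] at h2
    exact h2.symm
  have h2 : mon (Fin.append u fun i => π (q i)) c = mon u fun l => c (Fin.castAdd k l) := by
    unfold mon
    rw [Fin.prod_univ_add]
    have h3 : (∏ i : Fin k, (Fin.append u fun i => π (q i)) (Fin.natAdd f i) ^
        (c (Fin.natAdd f i)).val) = 1 := by
      refine Finset.prod_eq_one fun i _ => ?_
      rw [h1 i, ZMod.val_zero, pow_zero]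
    rw [h3, mul_one]
    refine Finset.prod_congr rfl fun l _ => ?_
    rw [Fin.append_left]
  have h3 := hb.ind (fun l => c (Fin.castAdd k l)) ⟨s, by rw [← h2, hs]⟩
  funext i
  refine Fin.addCases ?_ ?_ i
  · intro l
    exact congrFun h3 l
  · intro j
    exact h1 j

/-- the table of the first `k` primes -/
def res {f k : ℕ} (τ : Tab p f (k + 1)) : Tab p f k :=
  (fun i => τ.1 i.castSucc,
    fun x => τ.2 ⟨(x.1.1.castSucc, x.1.2.castSucc), Fin.castSucc_lt_castSucc_iff.2 x.2⟩)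

theorem tb_snoc {f k : ℕ} {ζ : F} {u : Fin f → F} {π : HeightOneSpectrum (𝓞 F) → F} {τ : Tab p f (k + 1)}
    {q : Fin k → HeightOneSpectrum (𝓞 F)} {v : HeightOneSpectrum (𝓞 F)} :
    Tb ζ u π τ (Fin.snoc (α := fun _ => HeightOneSpectrum (𝓞 F)) q v) ↔
      Tb ζ u π (res τ) q ∧ ((∀ l, sy p ζ v (u l) = τ.1 (Fin.last k) l) ∧
        ∀ i : Fin k, sy p ζ v (π (q i)) = τ.2 ⟨(i.castSucc, Fin.last k), Fin.castSucc_lt_last i⟩) := by
  constructor
  · rintro ⟨h1, h2⟩
    refine ⟨⟨?_, ?_⟩, ⟨?_, ?_⟩⟩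
    · intro j l
      have := h1 j.castSucc l
      rwa [Fin.snoc_castSucc] at this
    · rintro ⟨⟨i, j⟩, hij⟩
      have := h2 ⟨(i.castSucc, j.castSucc), Fin.castSucc_lt_castSucc_iff.2 hij⟩
      simp only [Fin.snoc_castSucc] at this
      exact this
    · intro l
      have := h1 (Fin.last k) l
      rwa [Fin.snoc_last] at this
    · intro i
      have := h2 ⟨(i.castSucc, Fin.last k), Fin.castSucc_lt_last i⟩
      simp only [Fin.snoc_castSucc, Fin.snoc_last] at this
      exact this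
  · rintro ⟨⟨h1, h2⟩, ⟨h4, h5⟩⟩
    refine ⟨?_, ?_⟩
    · intro j
      refine Fin.lastCases ?_ ?_ j
      · intro l
        rw [Fin.snoc_last]
        exact h4 l
      · intro i l
        rw [Fin.snoc_castSucc]
        exact h1 i l
    · rintro ⟨⟨i, j⟩, hij⟩
      revert hij
      refine Fin.lastCases ?_ ?_ j
      · refine Fin.lastCases ?_ ?_ i
        · intro hij
          exact absurd hij (lt_irrefl _)
        · intro i' hij
          simp only [Fin.snoc_castSucc, Fin.snoc_last]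
          exact h5 i'
      · intro j'
        refine Fin.lastCases ?_ ?_ i
        · intro hij
          exact absurd hij (not_lt.2 (Fin.castSucc_lt_last j').le)
        · intro i' hij
          simp only [Fin.snoc_castSucc]
          exact h2 ⟨(i', j'), Fin.castSucc_lt_castSucc_iff.1 hij⟩

/-! ## Limits -/

theorem lim_Tb (hCH : S_CHEB) (hB : S_BAS) {ζ : F} (hζ : IsPrimitiveRoot ζ p) {y f : ℕ} {u r : Fin f → F}
    {π : HeightOneSpectrum (𝓞 F) → F} {g : (Fin f → ZMod p) → (Fin f → ZMod p) → ZMod p}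
    (hb : Base p ζ y f u r π g) {k : ℕ} {q : Fin k → HeightOneSpectrum (𝓞 F)}
    (hq : Function.Injective q) (hS : ∀ i, ¬ Sm y (q i)) {τ : Tab p f (k + 1)}
    (hτ : Tb ζ u π (res τ) q) :
    Tendsto (fun x : ℕ => ((Cs (fun v => W y q v ∧
      Tb ζ u π τ (Fin.snoc (α := fun _ => HeightOneSpectrum (𝓞 F)) q v)) x).ncard : ℝ) / Nm F x)
      atTop (𝓝 (1 / (p : ℝ) ^ (f + k))) := by
  obtain ⟨h1, h2⟩ := indep hB hb hq hS
  have h3 := hCH p F ζ hζ (f + k) _ h1 h2 (Fin.append (τ.1 (Fin.last k)) fun i : Fin k =>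
    τ.2 ⟨(i.castSucc, Fin.last k), Fin.castSucc_lt_last i⟩)
  refine ratio_congr (T := {v | Sm y v} ∪ Set.range q)
    ((fin_sm y).union (Set.finite_range q))
    ?_ h3
  intro v hv
  have h4 : (∀ i, sy p ζ v ((Fin.append u fun i => π (q i)) i) =
      (Fin.append (τ.1 (Fin.last k)) fun i : Fin k =>
        τ.2 ⟨(i.castSucc, Fin.last k), Fin.castSucc_lt_last i⟩) i) ↔
      (∀ l, sy p ζ v (u l) = τ.1 (Fin.last k) l) ∧
        ∀ i : Fin k, sy p ζ v (π (q i)) = τ.2 ⟨(i.castSucc, Fin.last k), Fin.castSucc_lt_last i⟩ := by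
    constructor
    · intro h
      refine ⟨fun l => ?_, fun i => ?_⟩
      · have := h (Fin.castAdd k l)
        rwa [Fin.append_left, Fin.append_left] at this
      · have := h (Fin.natAdd f i)
        rwa [Fin.append_right, Fin.append_right] at this
    · rintro ⟨h, h'⟩ i
      refine Fin.addCases ?_ ?_ i
      · intro l
        rw [Fin.append_left, Fin.append_left]
        exact h l
      · intro i
        rw [Fin.append_right, Fin.append_right]
        exact h' i
  have h6 : W y q v := ⟨fun h => hv (Or.inl h), fun i h => hv (Or.inr ⟨i, h⟩)⟩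
  rw [tb_snoc, h4]
  constructor
  · intro h
    exact ⟨h6, hτ, h⟩
  · intro h
    exact h.2.2

theorem lim_not {ζ : F} {y f : ℕ} {u : Fin f → F} {π : HeightOneSpectrum (𝓞 F) → F} {k : ℕ}
    {q : Fin k → HeightOneSpectrum (𝓞 F)} {τ : Tab p f (k + 1)} (hτ : ¬ Tb ζ u π (res τ) q) :
    Tendsto (fun x : ℕ => ((Cs (fun v => W y q v ∧
      Tb ζ u π τ (Fin.snoc (α := fun _ => HeightOneSpectrum (𝓞 F)) q v)) x).ncard : ℝ) / Nm F x)
      atTop (𝓝 0) := by
  have h1 : ∀ x, (Cs (fun v => W y q v ∧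
      Tb ζ u π τ (Fin.snoc (α := fun _ => HeightOneSpectrum (𝓞 F)) q v)) x) = ∅ := by
    intro x
    refine Set.eq_empty_of_forall_notMem fun v hv => ?_
    have h2 := hv.2.2
    rw [tb_snoc] at h2
    exact hτ h2.1
  simp only [h1, Set.ncard_empty, Nat.cast_zero, zero_div]
  exact tendsto_const_nhds

theorem alg (A B P : ℝ) (m n : ℕ) :
    A * (1 / P ^ n) / B - 1 / P ^ (m + n) = (A / B - 1 / P ^ m) * (1 / P ^ n) := by
  rw [pow_add]
  ring

open Classical in
theorem step (hCH : S_CHEB) (hB : S_BAS) {ζ : F} (hζ : IsPrimitiveRoot ζ p) {y f : ℕ} {u r : Fin f → F}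
    {π : HeightOneSpectrum (𝓞 F) → F} {g : (Fin f → ZMod p) → (Fin f → ZMod p) → ZMod p}
    (hb : Base p ζ y f u r π g) {k : ℕ} (τ : Tab p f (k + 1)) {ε : ℝ} (hε : 0 < ε) {X : Fin k → ℕ}
    (h1 : (Box y X : Set (Fin k → HeightOneSpectrum (𝓞 F))).Finite)
    (h2 : 0 < ((Box y X : Set (Fin k → HeightOneSpectrum (𝓞 F))).ncard : ℝ))
    (h3 : |({q ∈ (Box y X : Set (Fin k → HeightOneSpectrum (𝓞 F))) | Tb ζ u π (res τ) q}.ncard : ℝ) /
      ((Box y X : Set (Fin k → HeightOneSpectrum (𝓞 F))).ncard : ℝ) -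
        1 / (p : ℝ) ^ (k * f + k * (k - 1) / 2)| ≤ ε / 2) :
    ∀ᶠ x : ℕ in atTop,
    (Box y (Fin.snoc (α := fun _ => ℕ) X x) :
      Set (Fin (k + 1) → HeightOneSpectrum (𝓞 F))).Finite ∧
    0 < ((Box y (Fin.snoc (α := fun _ => ℕ) X x) :
      Set (Fin (k + 1) → HeightOneSpectrum (𝓞 F))).ncard : ℝ) ∧
    |({q ∈ (Box y (Fin.snoc (α := fun _ => ℕ) X x) :
      Set (Fin (k + 1) → HeightOneSpectrum (𝓞 F))) | Tb ζ u π τ q}.ncard : ℝ) /
      ((Box y (Fin.snoc (α := fun _ => ℕ) X x) :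
      Set (Fin (k + 1) → HeightOneSpectrum (𝓞 F))).ncard : ℝ) -
        1 / (p : ℝ) ^ ((k + 1) * f + (k + 1) * (k + 1 - 1) / 2)| ≤ ε := by
  have hp1 : (1 : ℝ) ≤ p := by exact_mod_cast (Fact.out : p.Prime).one_le
  set B := h1.toFinset with hBdef
  have hBc : ((Box y X : Set (Fin k → HeightOneSpectrum (𝓞 F))).ncard : ℝ) = (B.card : ℝ) := by
    rw [Set.ncard_eq_toFinset_card _ h1]
  have hBt : ({q ∈ (Box y X : Set (Fin k → HeightOneSpectrum (𝓞 F))) |
      Tb ζ u π (res τ) q}.ncard : ℝ) = ((B.filter fun q => Tb ζ u π (res τ) q).card : ℝ) := by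
    rw [← Set.ncard_coe_finset]
    congr 2
    ext q
    rw [Finset.mem_coe, Finset.mem_filter, hBdef, Set.Finite.mem_toFinset]
    exact Iff.rfl
  have hall : ∀ x, (Box y (Fin.snoc (α := fun _ => ℕ) X x) :
      Set (Fin (k + 1) → HeightOneSpectrum (𝓞 F))) =
      {q' ∈ (Box y (Fin.snoc (α := fun _ => ℕ) X x) :
        Set (Fin (k + 1) → HeightOneSpectrum (𝓞 F))) | True} := by
    intro x
    ext q
    exact ⟨fun h => ⟨h, trivial⟩, fun h => h.1⟩
  have l1 : Tendsto (fun x : ℕ => ((Box y (Fin.snoc (α := fun _ => ℕ) X x) :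
      Set (Fin (k + 1) → HeightOneSpectrum (𝓞 F))).ncard : ℝ) / Nm F x) atTop
      (𝓝 (B.card : ℝ)) := by
    have h4 : ∀ x : ℕ, ((Box y (Fin.snoc (α := fun _ => ℕ) X x) :
        Set (Fin (k + 1) → HeightOneSpectrum (𝓞 F))).ncard : ℝ) / Nm F x =
        ∑ q ∈ B, ((Cs (fun v => W y q v ∧ True) x).ncard : ℝ) / Nm F x := by
      intro x
      rw [hall x, (box_sum h1 x fun _ => True).2, Nat.cast_sum, Finset.sum_div]
    simp only [h4]
    have h5 := tendsto_finsetSum B fun q (_ : q ∈ B) => lim_W (F := F) y q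
    rw [Finset.sum_const, nsmul_eq_mul, mul_one] at h5
    exact h5
  have l2 : Tendsto (fun x : ℕ => ({q ∈ (Box y (Fin.snoc (α := fun _ => ℕ) X x) :
      Set (Fin (k + 1) → HeightOneSpectrum (𝓞 F))) | Tb ζ u π τ q}.ncard : ℝ) / Nm F x) atTop
      (𝓝 (((B.filter fun q => Tb ζ u π (res τ) q).card : ℝ) * (1 / (p : ℝ) ^ (f + k)))) := by
    have h4 : ∀ x : ℕ, ({q ∈ (Box y (Fin.snoc (α := fun _ => ℕ) X x) :
        Set (Fin (k + 1) → HeightOneSpectrum (𝓞 F))) | Tb ζ u π τ q}.ncard : ℝ) / Nm F x =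
        ∑ q ∈ B, ((Cs (fun v => W y q v ∧
          Tb ζ u π τ (Fin.snoc (α := fun _ => HeightOneSpectrum (𝓞 F)) q v)) x).ncard : ℝ) /
            Nm F x := by
      intro x
      rw [(box_sum h1 x fun q => Tb ζ u π τ q).2, Nat.cast_sum, Finset.sum_div]
    simp only [h4]
    have h6 : ((B.filter fun q => Tb ζ u π (res τ) q).card : ℝ) * (1 / (p : ℝ) ^ (f + k)) =
        ∑ q ∈ B, if Tb ζ u π (res τ) q then (1 / (p : ℝ) ^ (f + k) : ℝ) else 0 := by
      rw [← Finset.sum_filter, Finset.sum_const, nsmul_eq_mul]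
    rw [h6]
    refine tendsto_finsetSum B fun q hq => ?_
    rw [hBdef, Set.Finite.mem_toFinset] at hq
    by_cases hT : Tb ζ u π (res τ) q
    · rw [if_pos hT]
      exact lim_Tb hCH hB hζ hb hq.1 (fun i => (hq.2 i).1) hT
    · rw [if_neg hT]
      exact lim_not hT
  rw [hBc] at h2 h3
  rw [hBt] at h3
  have l3 := l2.div l1 h2.ne'
  set L : ℝ := ((B.filter fun q => Tb ζ u π (res τ) q).card : ℝ) * (1 / (p : ℝ) ^ (f + k)) / (B.card : ℝ)
    with hL
  have hL2 : |L - 1 / (p : ℝ) ^ ((k + 1) * f + (k + 1) * (k + 1 - 1) / 2)| ≤ ε / 2 := by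
    have e1 : (k + 1) * f + (k + 1) * (k + 1 - 1) / 2 = (k * f + k * (k - 1) / 2) + (f + k) := by
      rw [Nat.triangle_succ]
      ring
    have e2 : L - 1 / (p : ℝ) ^ ((k + 1) * f + (k + 1) * (k + 1 - 1) / 2) =
        (((B.filter fun q => Tb ζ u π (res τ) q).card : ℝ) / (B.card : ℝ) -
          1 / (p : ℝ) ^ (k * f + k * (k - 1) / 2)) * (1 / (p : ℝ) ^ (f + k)) := by
      rw [hL, e1]
      exact alg _ _ _ _ _
    rw [e2, abs_mul]
    have h7 : |(1 / (p : ℝ) ^ (f + k) : ℝ)| ≤ 1 := by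
      rw [abs_of_nonneg (by positivity), div_le_one (by positivity)]
      exact one_le_pow₀ hp1
    calc _ ≤ (ε / 2) * 1 := mul_le_mul h3 h7 (abs_nonneg _) (by positivity)
      _ = ε / 2 := mul_one _
  have h8 := (Metric.tendsto_nhds.1 l3) (ε / 2) (by positivity)
  filter_upwards [h8, l1.eventually_const_lt h2, (tend_top F).eventually_gt_atTop 0]
    with x h9 h10 h11
  refine ⟨?_, ?_, ?_⟩
  · rw [hall x]
    exact (box_sum h1 x fun _ => True).1
  · by_contra hcon
    have h12 : ((Box y (Fin.snoc (α := fun _ => ℕ) X x) :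
      Set (Fin (k + 1) → HeightOneSpectrum (𝓞 F))).ncard : ℝ) = 0 :=
      le_antisymm (not_lt.1 hcon) (Nat.cast_nonneg _)
    rw [h12, zero_div] at h10
    exact lt_irrefl _ h10
  · have h12 : ∀ a b : ℝ, a / Nm F x / (b / Nm F x) = a / b := fun a b =>
      div_div_div_cancel_right₀ h11.ne' a b
    rw [Pi.div_apply, h12, Real.dist_eq] at h9
    rw [abs_le] at hL2 ⊢
    rw [abs_lt] at h9
    constructor <;> linarith

theorem nest : S_CHEB → S_BAS → S_NEST := by
  intro hCH hB p _ F _ _ ζ hζ y f u r π g hb k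
  induction k with
  | zero =>
    intro τ ε hε
    have h1 : (Box y (Fin.elim0 : Fin 0 → ℕ) : Set (Fin 0 → HeightOneSpectrum (𝓞 F))) =
        Set.univ := by
      refine Set.eq_univ_of_forall fun q => ⟨fun i => i.elim0, fun i => i.elim0⟩
    have h2 : {q ∈ (Set.univ : Set (Fin 0 → HeightOneSpectrum (𝓞 F))) | Tb ζ u π τ q} =
        Set.univ := by
      refine Set.eq_univ_of_forall fun q => ⟨trivial, fun j => j.elim0, ?_⟩
      rintro ⟨⟨i, _⟩, _⟩
      exact i.elim0
    show (Box y (Fin.elim0 : Fin 0 → ℕ) : Set (Fin 0 → HeightOneSpectrum (𝓞 F))).Finite ∧ _ ∧ _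
    rw [h1, h2]
    have h3 : (Set.univ : Set (Fin 0 → HeightOneSpectrum (𝓞 F))).ncard = 1 := by
      rw [Set.ncard_univ, Nat.card_unique]
    refine ⟨Set.toFinite _, ?_, ?_⟩
    · rw [h3]
      norm_num
    · rw [h3]
      norm_num
      exact hε.le
  | succ k ih =>
    intro τ ε hε
    refine nest_mono k ?_ (ih (res τ) (ε / 2) (by positivity))
    rintro X ⟨h1, h2, h3⟩
    exact step hCH hB hζ hb τ hε h1 h2 h3

end Pool.Agent.Q153.LK
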