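import Pool.Agent.Q7.LK.Stm3
import Pool.Agent.Q123.LK.SH2

/-!
# Project LK, job SH2M: the solutions of the table, many classes
-/

set_option autoImplicit false

namespace Pool.Agent.Q153.LK

open NumberField IsDedekindDomain Filter Topology Finset
open Pool.Agent.Q7.LK Pool.Agent.Q123.LK
open Pool.Agent.Q283.LQ (Sm Box Nest nS)

/-- **JOB SH2M** -/
theorem sh2m (hBAS : S_BAS) (hSH1 : S_SH1) : S_SH2M := by
  classical
  intro p _ F _ _ ζ hζ y f u r π g B A cc hL D0 ψ w hD0 hw k z q hk hz hq hS τ hτ E hE D hfit N hmany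
  obtain ⟨a, ha, hne⟩ := hmany
  have hpp : p.Prime := Fact.out
  have hp0 : p ≠ 0 := hpp.ne_zero
  have hp1 : 1 < p := hpp.one_lt
  have hD := hfit.ne
  have hvD : ∀ j, vl p (q j) D = z j := by
    intro j
    rw [hfit.ram _ (hS j), Finset.sum_eq_single j]
    · rw [if_pos rfl]
    · intro i _ hi
      rw [if_neg fun h => hi (hq h)]
    · intro h; exact absurd (Finset.mem_univ j) h
  have key : ∀ i : Fin N, ∃ (x : (Fin f → ZMod p) × (Fin k → ZMod p)) (t : ℕ), IsSol g w z E τ x ∧
      Eqv p (a i * D ^ t * mon u x.1) (∏ j, π (q j) ^ (x.2 j).val) := by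
    intro i
    set j0 : Fin k := ⟨0, hk⟩
    set e : ZMod p := - (vl p (q j0) (a i) * (z j0)⁻¹) with he
    have hai := (ha i).1.ne
    have h1 := cond_pow hBAS hL hD (ha i).1 1 e.val
    rw [pow_one] at h1
    have h2 : ∀ j : Fin k, (j : ℕ) = 0 → vl p (q j) (a i * D ^ e.val) = 0 := by
      intro j hj
      have hj' : j = j0 := Fin.ext hj
      rw [hj', vl_mul hBAS _ hai (pow_ne_zero _ hD), vl_pow hBAS _ hD, hvD,
        ZMod.natCast_zmod_val, he, neg_mul, mul_assoc, inv_mul_cancel₀ (hz j0), mul_one, add_neg_cancel]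
    have h3 : ¬ IsPow p (a i * D ^ e.val) := (ha i).2 e.val
    obtain ⟨x, hx1, hx2⟩ := sol hBAS hSH1 hζ B hL hD0 hw z q hz hq hS τ hτ E hE hfit h1 h2 h3
    exact ⟨x, e.val, hx1, hx2⟩
  choose x t hx hxe using key
  have hinj : Function.Injective x := by
    intro i i' h
    by_contra hii
    have h1 := hxe i
    rw [h] at h1
    have h2 := eqv_trans h1 (eqv_symm (hxe i'))
    have hm : mon u (x i').1 ≠ 0 := mon_ne B.ue _
    have h3 : Eqv p (a i * D ^ t i) (a i' * D ^ t i') := by
      have h4 := eqv_mul h2 (eqv_refl (p := p) (mon u (x i').1)⁻¹)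
      rwa [mul_inv_cancel_right₀ hm, mul_inv_cancel_right₀ hm] at h4
    apply hne i i' hii (t i + t i' * (p - 1))
    apply isPow_of
    have h5 := eqv_mul h3 (eqv_refl (p := p) (a i' * D ^ t i')⁻¹)
    have ha1 : a i' ≠ 0 := (ha i').1.ne
    have hD1 : D ^ t i' ≠ 0 := pow_ne_zero _ hD
    rw [mul_inv_cancel₀ (mul_ne_zero ha1 hD1)] at h5
    refine eqv_trans ?_ h5
    have h6 : a i / a i' * D ^ (t i + t i' * (p - 1)) =
        a i * D ^ t i * (a i' * D ^ t i')⁻¹ * (D ^ t i') ^ p := by
      have h8 : (D ^ t i') ^ p = D ^ t i' * D ^ (t i' * (p - 1)) := by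
        rw [← pow_mul, ← pow_add]
        congr 1
        have : p = (p - 1) + 1 := by omega
        conv_lhs => rw [this]
        ring
      rw [h8, pow_add]
      field_simp
    rw [h6]
    exact eqv_one_mul (eqv_pow_p hD1)
  calc N = (univ : Finset (Fin N)).card := by simp
    _ = (univ.image x).card := (Finset.card_image_of_injective _ hinj).symm
    _ ≤ _ := by
      apply Finset.card_le_card
      intro e he
      obtain ⟨i, _, rfl⟩ := Finset.mem_image.mp he
      simp only [Finset.mem_filter, Finset.mem_univ, true_and]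
      exact hx i

end Pool.Agent.Q153.LK
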