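import Pool.Agent.Q7.LK.Stm

/-!
# Project LK (helper7): orders modulo `p` and monomials
-/

set_option autoImplicit false

namespace Pool.Agent.Q153.LK

open NumberField IsDedekindDomain Filter Topology
open Pool.Agent.Q7.LK
open Pool.Agent.Q283.LQ (Sm Box Nest nS)

variable {p : ℕ} [Fact p.Prime] {F : Type} [Field F] [NumberField F]

theorem vl_mul (hB : S_BAS) (v : HeightOneSpectrum (𝓞 F)) {a b : F} (ha : a ≠ 0) (hb : b ≠ 0) :
    vl p v (a * b) = vl p v a + vl p v b := (hB p F v).2.2.2.2.1 a b ha hb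

theorem vl_one (hB : S_BAS) (v : HeightOneSpectrum (𝓞 F)) : vl p v (1 : F) = 0 := by
  have h := vl_mul (p := p) hB v (one_ne_zero (α := F)) one_ne_zero
  rw [mul_one] at h
  exact left_eq_add.1 h

theorem vl_pow (hB : S_BAS) (v : HeightOneSpectrum (𝓞 F)) {a : F} (ha : a ≠ 0) (n : ℕ) :
    vl p v (a ^ n) = n * vl p v a := by
  induction n with
  | zero => rw [pow_zero, vl_one hB, Nat.cast_zero, zero_mul]
  | succ n ih =>
    rw [pow_succ, vl_mul hB v (pow_ne_zero n ha) ha, ih]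
    push_cast
    ring

theorem vl_powp (hB : S_BAS) (v : HeightOneSpectrum (𝓞 F)) {a : F} (ha : a ≠ 0) :
    vl p v (a ^ p) = 0 := by
  rw [vl_pow hB v ha, CharP.cast_eq_zero, zero_mul]

theorem vl_inv (hB : S_BAS) (v : HeightOneSpectrum (𝓞 F)) {a : F} (ha : a ≠ 0) :
    vl p v a⁻¹ = -vl p v a := by
  have h := vl_mul (p := p) hB v ha (inv_ne_zero ha)
  rw [mul_inv_cancel₀ ha, vl_one hB] at h
  exact (neg_eq_of_add_eq_zero_right h.symm).symm

theorem vl_div (hB : S_BAS) (v : HeightOneSpectrum (𝓞 F)) {a b : F} (ha : a ≠ 0) (hb : b ≠ 0) :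
    vl p v (a / b) = vl p v a - vl p v b := by
  rw [div_eq_mul_inv, vl_mul hB v ha (inv_ne_zero hb), vl_inv hB v hb, sub_eq_add_neg]

theorem vl_prod (hB : S_BAS) (v : HeightOneSpectrum (𝓞 F)) {ι : Type} (s : Finset ι) (g : ι → F)
    (hg : ∀ i, g i ≠ 0) : vl p v (∏ i ∈ s, g i) = ∑ i ∈ s, vl p v (g i) := by
  classical
  induction s using Finset.induction_on with
  | empty => rw [Finset.prod_empty, Finset.sum_empty, vl_one hB]
  | insert i s hi ih =>
    rw [Finset.prod_insert hi, Finset.sum_insert hi,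
      vl_mul hB v (hg i) (Finset.prod_ne_zero_iff.2 fun j _ => hg j), ih]

theorem mon_ne {f : ℕ} {u : Fin f → F} (hu : ∀ l, u l ≠ 0) (c : Fin f → ZMod p) : mon u c ≠ 0 := by
  unfold mon
  exact Finset.prod_ne_zero_iff.2 fun i _ => pow_ne_zero _ (hu i)

theorem vl_mon (hB : S_BAS) (v : HeightOneSpectrum (𝓞 F)) {m : ℕ} {a : Fin m → F}
    (ha : ∀ i, a i ≠ 0) (c : Fin m → ZMod p) : vl p v (mon a c) = ∑ i, c i * vl p v (a i) := by
  unfold mon
  rw [vl_prod hB v _ _ fun i => pow_ne_zero _ (ha i)]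
  refine Finset.sum_congr rfl fun i _ => ?_
  rw [vl_pow hB v (ha i), ZMod.natCast_zmod_val]

theorem val_vl {v : HeightOneSpectrum (𝓞 F)} {a : F} (h : v.valuation F a = 1) : vl p v a = 0 := by
  unfold vl
  rw [h, WithZero.log_one]
  simp

theorem val_vl1 {v : HeightOneSpectrum (𝓞 F)} {a : F} (h : v.valuation F a = WithZero.exp (-1 : ℤ)) :
    vl p v a = 1 := by
  unfold vl
  rw [h, WithZero.log_exp]
  simp

end Pool.Agent.Q153.LK
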